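import Pool.Agent.helper34.NTA.Spec

set_option autoImplicit false

namespace Pool.Agent.NTA

open Equiv

theorem GRP_lab : ∀ c : ZMod 10, (KL c → ¬ KL (c + 1) ∧ lam (c + 1) = lam c + 1) ∧
    (¬ KL c → KL (c + 1) ∧ lam (c + 1) = lam c) := by decide

section

variable {Q L : Type} [Group Q] [Group L] {r : Fin 5 → Q} {ι : Q →* L} {k : Q × Fin 5 → L} {π : L →* Q}

theorem GRP_sq (hr : ∀ i, r i * r i = 1) (hL : Lamp Q L r ι k π) (a i : Fin 5) :
    (ι (r i) * k (1, a)) ^ 2 = k (r i, a) * k (1, a) := by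
  have h1 : ι (r i) * ι (r i) = 1 := by rw [← map_mul, hr, map_one]
  have h2 : (ι (r i))⁻¹ = ι (r i) := inv_eq_of_mul_eq_one_left h1
  have h3 := hL.conj (r i) 1 a
  rw [h2, mul_one] at h3
  rw [pow_two, ← h3]
  group

theorem GRP_four (hr : ∀ i, r i * r i = 1) (hL : Lamp Q L r ι k π) (a i : Fin 5) (hi : i = a ∨ i = a + 1) :
    (ι (r i) * k (1, a)) ^ 4 = 1 := by
  have h1 : (ι (r i) * k (1, a)) ^ 4 = ((ι (r i) * k (1, a)) ^ 2) ^ 2 := by rw [← pow_mul]
  have hn : Near r (1, a) (r i, a) := by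
    refine ⟨rfl, ?_⟩
    rcases hi with rfl | rfl
    · left; simp
    · right; simp
  have hc := hL.com _ _ hn
  rw [h1, GRP_sq hr hL, pow_two]
  calc k (r i, a) * k (1, a) * (k (r i, a) * k (1, a))
      = k (r i, a) * (k (1, a) * k (r i, a)) * k (1, a) := by group
    _ = k (r i, a) * (k (r i, a) * k (1, a)) * k (1, a) := by rw [hc]
    _ = (k (r i, a) * k (r i, a)) * (k (1, a) * k (1, a)) := by group
    _ = 1 := by rw [hL.inv, hL.inv, one_mul]

theorem GRP_two (hr : ∀ i, r i * r i = 1) (hne : ∀ i, r i ≠ 1) (hL : Lamp Q L r ι k π) (a i : Fin 5) :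
    (ι (r i) * k (1, a)) ^ 2 ≠ 1 := by
  intro h
  rw [GRP_sq hr hL] at h
  have hp : (([(r i, a), (1, a)] : List (Q × Fin 5)).map k).prod = 1 := by
    simpa using h
  obtain ⟨m, hm⟩ := hL.par _ hp (r i, a)
  have hne' : ((1 : Q), a) ≠ (r i, a) := by
    intro h1
    exact hne i (congrArg Prod.fst h1).symm
  rw [List.countP_cons, List.countP_cons, List.countP_nil] at hm
  simp [hne'] at hm
  omega

theorem GRP_swap (x y : L) (n : ℕ) : (y * x) ^ n = x⁻¹ * (x * y) ^ n * x := by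
  have h : y * x = x⁻¹ * (x * y) * x⁻¹⁻¹ := by group
  rw [h, conj_pow, inv_inv]

theorem GRP_rel (hr : ∀ i, r i * r i = 1) (hne : ∀ i, r i ≠ 1) (hL : Lamp Q L r ι k π) (c : ZMod 10) :
    (gen r ι k c * gen r ι k (c + 1)) ^ 4 = 1 ∧ (gen r ι k c * gen r ι k (c + 1)) ^ 2 ≠ 1 := by
  by_cases hc : KL c
  · obtain ⟨h1, h2⟩ := (GRP_lab c).1 hc
    have e1 : gen r ι k c = k (1, lam c) := by unfold gen; rw [if_pos hc]
    have e2 : gen r ι k (c + 1) = ι (r (lam c + 1)) := by unfold gen; rw [if_neg h1, h2]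
    rw [e1, e2]
    constructor
    · rw [GRP_swap, GRP_four hr hL _ _ (Or.inr rfl)]
      group
    · intro h
      rw [GRP_swap] at h
      apply GRP_two hr hne hL (lam c) (lam c + 1)
      have h3 : (ι (r (lam c + 1)) * k (1, lam c)) ^ 2 =
          ι (r (lam c + 1)) * ((ι (r (lam c + 1)))⁻¹ * (ι (r (lam c + 1)) * k (1, lam c)) ^ 2 *
            ι (r (lam c + 1))) * (ι (r (lam c + 1)))⁻¹ := by group
      rw [h3, h]
      group
  · obtain ⟨h1, h2⟩ := (GRP_lab c).2 hc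
    have e1 : gen r ι k c = ι (r (lam c)) := by unfold gen; rw [if_neg hc]
    have e2 : gen r ι k (c + 1) = k (1, lam c) := by unfold gen; rw [if_pos h1, h2]
    rw [e1, e2]
    exact ⟨GRP_four hr hL _ _ (Or.inl rfl), GRP_two hr hne hL _ _⟩

theorem GRP_inv (hr : ∀ i, r i * r i = 1) (hL : Lamp Q L r ι k π) (c : ZMod 10) :
    gen r ι k c * gen r ι k c = 1 := by
  unfold gen
  split_ifs with h
  · exact hL.inv _
  · rw [← map_mul, hr, map_one]

end

theorem GRP (hQGR : QGR_stmt) (hLMP : LMP_stmt) (hCLA : CLA_stmt) : GRP_stmt := by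
  obtain ⟨Q, gQ, fQ, r, hr, hw⟩ := hQGR
  obtain ⟨L, gL, fL, ι, k, π, hL⟩ := hLMP Q r hr
  have hne : ∀ i, r i ≠ 1 := by
    intro i
    have h := hw [i] (by simp) (by simp) (by simp)
    simpa using h
  let s' : ZMod 10 → L × ℤˣ := fun c => (gen r ι k c, -1)
  let H : Subgroup (L × ℤˣ) := Subgroup.closure (Set.range s')
  let s : ZMod 10 → H := fun c => ⟨s' c, Subgroup.subset_closure ⟨c, rfl⟩⟩
  let sg : H →* ℤˣ := (MonoidHom.snd L ℤˣ).comp H.subtype
  let g1 : H →* L := (MonoidHom.fst L ℤˣ).comp H.subtype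
  have hg1 : ∀ c, g1 (s c) = gen r ι k c := fun c => rfl
  have hsg : ∀ c, sg (s c) = -1 := fun c => rfl
  have hext : ∀ x y : H, g1 x = g1 y → sg x = sg y → x = y := by
    intro x y h1 h2
    apply Subtype.ext
    exact Prod.ext h1 h2
  refine ⟨H, inferInstance, inferInstance, s, sg, ?_⟩
  constructor
  · intro c
    apply hext
    · rw [map_mul, hg1, map_one]
      exact GRP_inv hr hL c
    · rw [map_mul, hsg, map_one]
      rfl
  · exact hsg
  · intro c
    apply hext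
    · rw [map_pow, map_mul, hg1, hg1, map_one]
      exact (GRP_rel hr hne hL c).1
    · rw [map_pow, map_mul, hsg, hsg, map_one]
      rfl
  · intro c h
    have h1 := congrArg g1 h
    rw [map_pow, map_mul, hg1, hg1, map_one] at h1
    exact (GRP_rel hr hne hL c).2 h1
  · have h1 : Set.range s = ((↑) : H → L × ℤˣ) ⁻¹' (Set.range s') := by
      ext x
      constructor
      · rintro ⟨c, rfl⟩
        exact ⟨c, rfl⟩
      · rintro ⟨c, hc⟩
        exact ⟨c, Subtype.ext hc⟩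
    rw [h1]
    exact Subgroup.closure_closure_coe_preimage
  · intro w h1 h2 h3 h4
    have h5 := congrArg g1 h1
    rw [map_list_prod, List.map_map, map_one] at h5
    exact hCLA Q L r ι k π hr hw hL w h5 h2 h3 h4

end Pool.Agent.NTA
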